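import Mathlib
import Pool.Agent.V11310.Colored4
import Pool.Agent.V11310.ColoredP

namespace Pool.Agent.Results.MP_7b566e_nt.Counterexample

open PowerSeries Finset
open Pool.Agent.V11310.Colored4 (geom)
open Pool.Agent.V11310.ColoredP

/-- the inner double product -/
lemma inner (n : ℕ) : coeff n (geom 1 ^ (979 + 1) * geom 11 ^ (979 + 1)) =
    ∑ b ∈ range (n / 11 + 1), ((Nat.choose (979 + (n - 11 * b)) 979 : ℕ) : ℤ) *
      ((Nat.choose (979 + b) 979 : ℕ) : ℤ) := by
  rw [coeff_mul_geom_pow_sum (by norm_num)]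
  simp only [coeff_geom_one_pow]

lemma value : A 11 980 132 =
    ∑ b ∈ range (132 / 121 + 1), (∑ c ∈ range ((132 - 121 * b) / 11 + 1),
      ((Nat.choose (979 + ((132 - 121 * b) - 11 * c)) 979 : ℕ) : ℤ) *
      ((Nat.choose (979 + c) 979 : ℕ) : ℤ)) * ((Nat.choose (979 + b) 979 : ℕ) : ℤ) := by
  rw [A_trunc (L := 3) (by norm_num) (by norm_num) (by norm_num), prod_range_succ,
    prod_range_succ, prod_range_one]
  rw [show (11 : ℕ) ^ 0 = 1 by norm_num, show (11 : ℕ) ^ 1 = 11 by norm_num,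
    show (11 : ℕ) ^ 2 = 121 by norm_num, show 980 = 979 + 1 by norm_num,
    coeff_mul_geom_pow_sum (by norm_num)]
  simp only [inner]

lemma num_check : 11 ^ 3 ∣ ∑ b ∈ range (132 / 121 + 1), (∑ c ∈ range ((132 - 121 * b) / 11 + 1),
      ((979 + ((132 - 121 * b) - 11 * c)).descFactorial ((132 - 121 * b) - 11 * c) /
        Nat.factorial ((132 - 121 * b) - 11 * c)) *
      ((979 + c).descFactorial c / Nat.factorial c)) *
        ((979 + b).descFactorial b / Nat.factorial b) := by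
  decide +kernel

lemma ch (j : ℕ) : Nat.choose (979 + j) 979 = (979 + j).descFactorial j / Nat.factorial j := by
  rw [Nat.choose_symm_add, Nat.choose_eq_descFactorial_div_factorial]

lemma dvd_value : (11 : ℤ) ^ 3 ∣ A 11 980 132 := by
  rw [value]
  have h := num_check
  simp only [← ch] at h
  exact_mod_cast h

/-- Part (i) fails for `p = 11`, `u = 9`, `s = 1` (so `k = 980`) at `n = 132`:
`11^3` divides `A_{11,980}(132)`. -/
theorem result : ∃ p u s n : ℕ, (p = 11 ∧ u = 9 ∧ s = 1 ∧ n = 132) ∧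
    p.Prime ∧ 3 ≤ p ∧ 2 ≤ u ∧ u ≤ p - 1 ∧ 1 ≤ s ∧ u * p ^ s ≤ n ∧
    (p : ℤ) ^ 3 ∣ A p ((p - 1) * (u * p ^ s - 1)) n := by
  refine ⟨11, 9, 1, 132, ⟨rfl, rfl, rfl, rfl⟩, by norm_num, by norm_num, by norm_num, by norm_num,
    le_rfl, by norm_num, ?_⟩
  have h := dvd_value
  have e : (11 - 1) * (9 * 11 ^ 1 - 1) = 980 := by norm_num
  rw [e]
  exact_mod_cast h

end Pool.Agent.Results.MP_7b566e_nt.Counterexample
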